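import Pool.Agent.H10.BK2
import Pool.Agent.H10.Swindle

namespace Pool.Agent.Results.MP_3b565c_an.NoAveraging

open Pool.Agent.H10.BK

theorem result (κ : Type) [Uncountable κ] [TopologicalSpace κ] [DiscreteTopology κ]
    (u : C(ℕ → OnePoint κ, B κ)) :
    ¬ ∃ T : C(ℕ → OnePoint κ, ℝ) →L[ℝ] C(B κ, ℝ), ∀ g : C(B κ, ℝ), T (g.comp u) = g := by
  rintro ⟨T, hT⟩
  exact no_compl (Pool.Agent.H10.PosIso.pre u) T hT

end Pool.Agent.Results.MP_3b565c_an.NoAveraging
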